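import Pool.Graph.R_seed8.TH416.HU.B12
import Pool.Graph.R_seed8.TH89.HU.B4
import Pool.Graph.R_seed8.TH359.HU.B3
import Pool.Graph.R_seed8.TH763.HU.B5
import Pool.Graph.R_seed8.TH993.HU.B6
import Pool.Graph.R_seed8.TH805.HU.B7
import Pool.Graph.R_seed8.TH859.HU.B9
import Pool.Graph.R_seed8.TH663.HU.C3
import Pool.Graph.R_seed8.TH28.HU.Ode
import Pool.Agent.H745.HV.Asm
import Pool.Agent.H745.HV.P_GA1
import Pool.Agent.H745.HV.P_GA2
import Pool.Agent.H745.HV.P_GA3
import Pool.Agent.H745.HV.P_GB8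
import Pool.Agent.H745.HV.P_GC1
import Pool.Agent.H745.HV.P_GC2
import Pool.Agent.H745.HV.P_BODY1
import Pool.Agent.H745.HV.P_BODY2
import Pool.Agent.H745.HV.P_HULL
import Pool.Agent.H745.HV.P_KER
import Pool.Agent.H745.HV.P_W0
import Pool.Agent.H745.HV.P_W1
import Pool.Agent.H745.HV.P_W2
import Pool.Agent.H745.HV.P_C2A
import Pool.Agent.H745.HV.P_LINES
import Pool.Agent.H745.HV.P_OUT
import Pool.Agent.H745.HV.P_ORD
import Pool.Agent.H745.HV.P_STEP1
import Pool.Agent.H745.HV.P_CALA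
import Pool.Agent.H745.HV.P_CALB
import Pool.Agent.H745.HV.P_CALC
import Pool.Agent.H745.HV.P_CUTR
import Pool.Agent.H745.HV.P_CUT
import Pool.Agent.H745.HV.P_STAR
import Pool.Agent.H745.HV.P_ISO
import Pool.Agent.H745.HV.P_EXT
import Pool.Agent.H745.HV.P_PLANE

/-!
# MP_b478d8_an, Q2: no dimension-free constant for small volume fractions

Every open interval in `(0, 1/2)` contains a number `α` for which some bounded open convex set
`Ω ⊆ ℝⁿ` has an isoperimetric set `E` of volume fraction `α` whose convex hull (the convex hull of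
the set of the points of density `1`) is the whole of `Ω`.  Hence there is no constant
`c(α) > 0`, independent of the dimension, for all `α ∈ (0, 1/2)`.
-/

set_option autoImplicit false

open MeasureTheory Set Metric Filter Topology
open scoped ENNReal Real

namespace Pool.Agent.Results.MP_b478d8_an.SmallFractions

open Pool.Agent.TH703.HU Pool.Agent.H745.HV

/-- The planar theorem. -/
theorem plane_all : S_PLANE := by
  have st := star w0 (cut w0 (cutr w0 (cala w0 (w2 w0)) (calb w0 (w2 w0) (cala w0 (w2 w0)))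
    (calcc w0 (w2 w0) (cala w0 (w2 w0)))))
  exact plane w0 (w1 w0) (w2 w0) (step1 (lines c2a Pool.Agent.TH663.HU.c3) out ord)
    (ext w0 (w1 w0) (w2 w0) st iso Pool.Agent.TH28.HU.c10)

theorem final_all : S_FINAL := by
  have b3 : S_B3 := Pool.Agent.TH359.HU.b3 Pool.Agent.TH416.HU.b1 Pool.Agent.TH416.HU.b2
  have b7 : S_B7 := Pool.Agent.TH805.HU.b7 Pool.Agent.TH763.HU.b5 Pool.Agent.TH993.HU.b6
    Pool.Agent.TH28.HU.c10
  have g8 : S_GB8 := gb8 ga1 ga2 ga3 Pool.Agent.TH416.HU.b1 Pool.Agent.TH416.HU.b2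
    Pool.Agent.TH89.HU.b4
  exact final ga1 (gc1 ga1 ga2 g8 b3 b7) (gc2 Pool.Agent.TH859.HU.b9) body1 body2 (hull body1)
    ker w0 (w1 w0) plane_all

/-- **Q2 of MP_b478d8_an (negative answer).** -/
theorem result :
    (∀ a b : ℝ, 0 ≤ a → a < b → b ≤ 1 / 2 →
      ∃ (n : ℕ) (Ω E : Set (EuclideanSpace ℝ (Fin n))) (α : ℝ), a < α ∧ α < b ∧ 1 ≤ n ∧
        IsOpen Ω ∧ Convex ℝ Ω ∧ Bornology.IsBounded Ω ∧ Ω.Nonempty ∧ IsIso Ω E α ∧
        Per Ω E < ⊤ ∧ convexHull ℝ (dens1 Ω E) = Ω) ∧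
    ¬ (∀ α : ℝ, 0 < α → α < 1 / 2 → ∃ c : ℝ, 0 < c ∧
      ∀ (n : ℕ) (Ω E : Set (EuclideanSpace ℝ (Fin n))), 1 ≤ n → IsOpen Ω → Convex ℝ Ω →
        Bornology.IsBounded Ω → Ω.Nonempty → IsIso Ω E α →
        volume (convexHull ℝ (dens1 Ω E)) ≤ ENNReal.ofReal (1 - c) * volume Ω) := by
  have h : ∀ a b : ℝ, 0 ≤ a → a < b → b ≤ 1 / 2 →
      ∃ (n : ℕ) (Ω E : Set (EuclideanSpace ℝ (Fin n))) (α : ℝ), a < α ∧ α < b ∧ 1 ≤ n ∧
        IsOpen Ω ∧ Convex ℝ Ω ∧ Bornology.IsBounded Ω ∧ Ω.Nonempty ∧ IsIso Ω E α ∧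
        Per Ω E < ⊤ ∧ convexHull ℝ (dens1 Ω E) = Ω := by
    intro a b ha hab hb
    obtain ⟨n, Ω, E, α, h1, h2, h3, h4, h5, h6, h7, h8, h9⟩ := final_all a b ha hab hb
    refine ⟨n, Ω, E, α, h1, h2, ?_, h3, h4, h5, h6, h7, h8, h9⟩
    by_contra hn
    have hn0 : n = 0 := by omega
    subst hn0
    -- in dimension `0` the only nonempty set is a point, with volume fraction `0` or `1`
    have hpos : volume Ω ≠ 0 := (h3.measure_pos volume h6).ne'
    have hfin : volume Ω ≠ ⊤ := h5.measure_lt_top.ne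
    have hfr := h7.frac
    have hα : 0 < ENNReal.ofReal α := ENNReal.ofReal_pos.2 (by linarith)
    rcases E.eq_empty_or_nonempty with hE | ⟨x, hx⟩
    · rw [hE, measure_empty] at hfr
      exact (ENNReal.mul_pos hα.ne' hpos).ne hfr
    · have hE : E = Ω := by
        refine Subset.antisymm h7.sub fun y _ => ?_
        rw [Subsingleton.elim y x]
        exact hx
      rw [hE] at hfr
      have h10 : ENNReal.ofReal α < 1 := by
        rw [← ENNReal.ofReal_one]
        exact (ENNReal.ofReal_lt_ofReal_iff one_pos).2 (by linarith)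
      have h11 : ENNReal.ofReal α * volume Ω < volume Ω := by
        calc ENNReal.ofReal α * volume Ω < 1 * volume Ω :=
              ENNReal.mul_lt_mul_left hpos hfin h10
          _ = volume Ω := one_mul _
      exact h11.ne hfr.symm
  refine ⟨h, fun hb => ?_⟩
  obtain ⟨n, Ω, E, α, h1, h2, hn, hΩo, hΩc, hΩb, hΩn, hE, -, hhull⟩ :=
    h 0 (1 / 2) le_rfl (by norm_num) le_rfl
  obtain ⟨c, hc, hall⟩ := hb α h1 h2
  have h3 := hall n Ω E hn hΩo hΩc hΩb hΩn hE
  rw [hhull] at h3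
  have hpos : volume Ω ≠ 0 := (hΩo.measure_pos volume hΩn).ne'
  have hfin : volume Ω ≠ ⊤ := hΩb.measure_lt_top.ne
  have h4 : ENNReal.ofReal (1 - c) * volume Ω < volume Ω := by
    have h5 : ENNReal.ofReal (1 - c) < 1 := by
      rw [← ENNReal.ofReal_one]
      exact (ENNReal.ofReal_lt_ofReal_iff one_pos).2 (by linarith)
    calc ENNReal.ofReal (1 - c) * volume Ω < 1 * volume Ω :=
          ENNReal.mul_lt_mul_left hpos hfin h5
      _ = volume Ω := one_mul _
  exact absurd h3 (not_le.2 h4)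

end Pool.Agent.Results.MP_b478d8_an.SmallFractions
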